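import Pool.Agent.Helper34.EC.Defs
import Mathlib.Algebra.Polynomial.Laurent

/-!
# Project EC, module B2: a polynomial supported in the diamond and divisible by a high power of
`XY - 1` is zero
-/

set_option autoImplicit false

namespace Pool.Agent.Helper5.EC

open Polynomial TensorProduct

noncomputable section

/-- The substitution `X ↦ Z⁻¹`, `Y ↦ T Z`. -/
def phi (k : Type) [Field k] : k[X][X] →+* LaurentPolynomial k[X] :=
  eval₂RingHom (eval₂RingHom ((LaurentPolynomial.C : k[X] →+* LaurentPolynomial k[X]).comp C)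
    (LaurentPolynomial.T (-1))) (LaurentPolynomial.C X * LaurentPolynomial.T 1)

theorem phi_key (k : Type) [Field k] :
    phi k (C X * X - 1 : k[X][X]) = LaurentPolynomial.C (X - 1) := by
  have h : (LaurentPolynomial.T (-1) : LaurentPolynomial k[X]) *
      LaurentPolynomial.T 1 = 1 := by
    rw [← LaurentPolynomial.T_add]; simp
  rw [phi, map_sub, map_mul, map_one]
  simp only [coe_eval₂RingHom, eval₂_C, eval₂_X, map_sub, map_one]
  have h2 : (LaurentPolynomial.T (-1) : LaurentPolynomial k[X]) * (LaurentPolynomial.C X *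
      LaurentPolynomial.T 1) = LaurentPolynomial.C X * (LaurentPolynomial.T (-1) *
      LaurentPolynomial.T 1) := by ring
  rw [h2, h, mul_one]

theorem phi_monomial {k : Type} [Field k] (i j : ℕ) (a : k) :
    phi k (monomial j (monomial i a)) =
      LaurentPolynomial.C (monomial j a) * LaurentPolynomial.T ((j : ℤ) - i) := by
  rw [phi]
  simp only [coe_eval₂RingHom, eval₂_monomial, RingHom.comp_apply]
  rw [LaurentPolynomial.T_pow, mul_pow, LaurentPolynomial.T_pow, ← C_mul_X_pow_eq_monomial,
    map_mul, map_pow]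
  have h : (LaurentPolynomial.T ((j : ℤ) - i) : LaurentPolynomial k[X]) =
      LaurentPolynomial.T ((i : ℤ) * -1) * LaurentPolynomial.T ((j : ℤ) * 1) := by
    rw [← LaurentPolynomial.T_add]
    congr 1
    ring
  rw [h]
  ring

theorem coeff_phi {k : Type} [Field k] (H : k[X][X]) (δ : ℤ) (j : ℕ) :
    ((phi k H).coeff δ).coeff j =
      if δ ≤ j then (H.coeff j).coeff ((j : ℤ) - δ).toNat else 0 := by
  induction H using Polynomial.induction_on' with
  | add p q hp hq =>
    rw [map_add, AddMonoidAlgebra.coeff_add, Finsupp.add_apply, coeff_add, hp, hq]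
    split_ifs <;> simp
  | monomial m p =>
    induction p using Polynomial.induction_on' with
    | add p q hp hq =>
      rw [map_add, map_add, AddMonoidAlgebra.coeff_add, Finsupp.add_apply, coeff_add, hp, hq]
      split_ifs
      · rw [← coeff_add, ← coeff_add]
      · simp
    | monomial i a =>
      rw [phi_monomial, ← LaurentPolynomial.single_eq_C_mul_T, AddMonoidAlgebra.coeff_single,
        Finsupp.single_apply, apply_ite (fun p : k[X] => p.coeff j), coeff_zero, coeff_monomial,
        coeff_monomial, apply_ite (fun p : k[X] => p.coeff ((j : ℤ) - δ).toNat), coeff_zero,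
        coeff_monomial]
      by_cases h1 : m = j
      · subst h1
        by_cases h2 : (m : ℤ) - i = δ
        · rw [if_pos h2, if_pos rfl, if_pos rfl, if_pos (by omega), if_pos (by omega)]
        · rw [if_neg h2]
          by_cases h3 : δ ≤ m
          · rw [if_pos h3, if_pos rfl, if_neg (by omega)]
          · rw [if_neg h3]
      · rw [if_neg h1, if_neg h1]
        simp

theorem diamond {k : Type} [Field k] {w γ : ℕ} (h : w < γ) (H : k[X][X])
    (hs : ∀ i j : ℕ, (H.coeff j).coeff i ≠ 0 → |(i : ℤ) - w| + |(j : ℤ) - w| ≤ w)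
    (hd : (C X * X - 1 : k[X][X]) ^ γ ∣ H) : H = 0 := by
  obtain ⟨Q, hQ⟩ := hd
  have hz : ∀ δ : ℤ, (phi k H).coeff δ = 0 := by
    intro δ
    have h1 : (X - 1 : k[X]) ^ γ ∣ (phi k H).coeff δ := by
      rw [hQ, map_mul, map_pow, phi_key, ← map_pow, ← LaurentPolynomial.smul_eq_C_mul,
        AddMonoidAlgebra.coeff_smul, Finsupp.smul_apply, smul_eq_mul]
      exact dvd_mul_right _ _
    have hP : ∀ j : ℕ, ((phi k H).coeff δ).coeff j ≠ 0 →
        ((w : ℤ) + δ ≤ 2 * j ∧ 2 * (j : ℤ) ≤ 3 * w + δ) := by
      intro j hj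
      rw [coeff_phi] at hj
      split_ifs at hj with h2
      · have h3 := hs _ _ hj
        have h4 : ((((j : ℤ) - δ).toNat : ℕ) : ℤ) = (j : ℤ) - δ := Int.toNat_of_nonneg (by omega)
        rw [h4] at h3
        have h5 := le_abs_self ((j : ℤ) - δ - w)
        have h6 := neg_le_abs ((j : ℤ) - δ - w)
        have h7 := le_abs_self ((j : ℤ) - w)
        have h8 := neg_le_abs ((j : ℤ) - w)
        constructor <;> omega
      · exact absurd rfl hj
    set P := (phi k H).coeff δ with hPdef
    set e : ℕ := (((w : ℤ) + δ + 1) / 2).toNat with he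
    have h2 : X ^ e ∣ P := by
      rw [X_pow_dvd_iff]
      intro d hd
      by_contra h3
      have := hP d h3
      omega
    obtain ⟨R, hR⟩ := h2
    by_contra hne
    have hR0 : R ≠ 0 := by
      rintro rfl
      exact hne (by rw [hR, mul_zero])
    have h3 : R.natDegree ≤ w := by
      rw [natDegree_le_iff_coeff_eq_zero]
      intro N hN
      by_contra h4
      have h5 : P.coeff (N + e) ≠ 0 := by
        rw [hR, add_comm, coeff_X_pow_mul']
        simpa using h4
      have := hP _ h5
      push_cast at this
      omega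
    have h4 : (X - 1 : k[X]) ^ γ ∣ R := by
      rw [hR] at h1
      refine IsCoprime.dvd_of_dvd_mul_left ?_ h1
      refine IsCoprime.pow ?_
      exact ⟨-1, 1, by ring⟩
    have h5 := natDegree_le_of_dvd h4 hR0
    rw [natDegree_pow] at h5
    have h6 : (X - 1 : k[X]).natDegree = 1 := by
      have := natDegree_X_sub_C (1 : k)
      rwa [C_1] at this
    rw [h6] at h5
    omega
  ext j i
  have h2 := coeff_phi H ((j : ℤ) - i) j
  rw [hz] at h2
  rw [coeff_zero, if_pos (by omega)] at h2
  rw [coeff_zero, coeff_zero]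
  rw [h2]
  congr 1
  omega

end

end Pool.Agent.Helper5.EC
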